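import Mathlib

/-!
# LT: extension of embeddings to purely transcendental extensions
-/

set_option autoImplicit false

namespace Pool.Agent.Helper26.LT

open Cardinal Set

/-- a field extension of uncountable cardinality of a countable field contains arbitrarily many
algebraically independent elements -/
theorem exists_algebraicIndependent {K E : Type} [Field K] [Field E] [Algebra K E] [Countable K]
    (hE : ℵ₀ < #E) (r : ℕ) : ∃ u : Fin r → E, AlgebraicIndependent K u := by
  obtain ⟨ι, x, hx⟩ := exists_isTranscendenceBasis' K E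
  have hinf : Infinite ι := by
    by_contra hfin
    rw [not_infinite_iff_finite] at hfin
    rcases isEmpty_or_nonempty ι with hι | hι
    · have halg : Algebra.IsAlgebraic K E := hx.isEmpty_iff_isAlgebraic.1 hι
      have h1 := Algebra.IsAlgebraic.cardinalMk_le_max K E
      exact absurd (hE.trans_le h1) (not_lt.2 (max_le mk_le_aleph0 le_rfl))
    · have h2 : #E ≤ ℵ₀ := by
        have h3 := hx.lift_cardinalMk_eq_max_lift
        rw [← lift_le_aleph0, h3]
        exact max_le (max_le (lift_le_aleph0.2 mk_le_aleph0) (lift_le_aleph0.2 mk_le_aleph0)) le_rfl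
      exact absurd hE (not_lt.2 h2)
  exact ⟨fun i => x (Infinite.natEmbedding ι i), hx.1.comp (fun i : Fin r =>
    Infinite.natEmbedding ι i) fun a b hab =>
      Fin.ext ((Infinite.natEmbedding ι).injective hab)⟩

/-- embeddings of a countable field in an uncountable field extend to purely transcendental
extensions -/
theorem exists_ext {K C E : Type} [Field K] [Field C] [Field E] [Algebra K C] [Countable K]
    (hE : ℵ₀ < #E) (φ : K →+* E) {r : ℕ} {t : Fin r → C} (ht : AlgebraicIndependent K t) :
    ∃ ψ : IntermediateField.adjoin K (range t) →+* E, ∀ k, ψ (algebraMap K _ k) = φ k := by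
  let : Algebra K E := φ.toAlgebra
  obtain ⟨u, hu⟩ := exists_algebraicIndependent (K := K) (E := E) hE r
  let f : IntermediateField.adjoin K (range t) →ₐ[K] E :=
    (IntermediateField.val _).comp (hu.aevalEquivField.toAlgHom.comp
      ht.aevalEquivField.symm.toAlgHom)
  exact ⟨f, fun k => f.commutes k⟩

theorem aleph0_lt_padic (q : ℕ) [Fact q.Prime] : ℵ₀ < #ℚ_[q] :=
  aleph0_lt_continuum.trans_le (continuum_le_cardinal_of_nontriviallyNormedField ℚ_[q])

/-- an embedding of a countable subfield `F` of `ℂ` in the `q`-adic numbers extends to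
`F (t 0, t 1, ...)` if the `t i` are algebraically independent over `F` -/
theorem exists_ext_complex {q : ℕ} [Fact q.Prime] (F : Subfield ℂ) (hF : (F : Set ℂ).Countable)
    (φ : F →+* ℚ_[q]) {r : ℕ} {t : Fin r → ℂ} (ht : AlgebraicIndependent F t) :
    ∃ ψ : Subfield.closure ((F : Set ℂ) ∪ range t) →+* ℚ_[q],
      ∀ (z : ℂ) (hz : z ∈ F) (hz' : z ∈ Subfield.closure ((F : Set ℂ) ∪ range t)),
        ψ ⟨z, hz'⟩ = φ ⟨z, hz⟩ := by
  have : Countable F := hF
  obtain ⟨ψ, hψ⟩ := exists_ext (aleph0_lt_padic q) φ ht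
  have hle : ∀ z, z ∈ Subfield.closure ((F : Set ℂ) ∪ range t) →
      z ∈ IntermediateField.adjoin F (range t) := by
    intro z hz
    have h1 : (F : Set ℂ) = range (algebraMap F ℂ) := by
      ext w
      exact ⟨fun hw => ⟨⟨w, hw⟩, rfl⟩, fun ⟨a, ha⟩ => ha ▸ a.2⟩
    rw [h1] at hz
    exact hz
  refine ⟨{ toFun := fun z => ψ ⟨z.1, hle z.1 z.2⟩
            map_one' := ?_
            map_mul' := ?_
            map_zero' := ?_
            map_add' := ?_ }, ?_⟩
  · exact map_one ψ
  · intro a b
    exact map_mul ψ ⟨a.1, hle a.1 a.2⟩ ⟨b.1, hle b.1 b.2⟩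
  · exact map_zero ψ
  · intro a b
    exact map_add ψ ⟨a.1, hle a.1 a.2⟩ ⟨b.1, hle b.1 b.2⟩
  · intro z hz hz'
    exact hψ ⟨z, hz⟩

theorem countable_closure (A : Finset ℂ) :
    ((Subfield.closure (A : Set ℂ) : Subfield ℂ) : Set ℂ).Countable := by
  have h1 := Subfield.cardinalMk_closure_le_max (A : Set ℂ)
  rw [← Cardinal.le_aleph0_iff_set_countable]
  exact h1.trans (max_le mk_le_aleph0 le_rfl)

end Pool.Agent.Helper26.LT
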